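import Pool.Agent.S821.GU3
import Pool.Agent.Results.MP_f11a48_ag.HyperellipticSmallestSubtorsor

/-!
# Sums of any number of motives of Calabi-Yau type: the smallest subtorsor which contains the periods

Let `β_l = (β_{l,1}, …, β_{l,m})`, `1 ≤ l ≤ L`, be rational numbers which are not integers, `n = 2m`, `θ = z d/dz`. The
hypergeometric operator `θ^n - z ∏_j (θ^2 - β_{l,j}^2)` has maximally unipotent monodromy at `z = 0`. For `m = 1` it belongs to a
family of elliptic curves; for `m = 2` and `β = (1/5, 2/5)` it is contiguous to the operator of the mirror quintic, and the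
fibre at a rational point `z` is the motive `h^3` of a Calabi-Yau threefold over `ℚ`. Let `Y_l(t)` be the matrix of the
derivatives `(θ^a f_b)(1 / t)` of the solutions given by the method of Frobenius. The period matrix of the fibre at `z = 1 / t`
(rows: a basis of the Betti side, columns: the rational basis `ω, θω, θ²ω, …` of the de Rham side) is `(Y_l(t) Ω)^t` with a
complex matrix `Ω`, the period matrix of the limit at `z = 0`. We use about `Ω` only that it respects the polarisations,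
`Ω^t J(β_l) Ω = (2πi)^v polB` with the rational matrix `J(β_l)` and the weight `v > 0`; here a rational basis of the Betti side
is chosen in which the polarisation has the matrix `polB` (all nondegenerate alternating forms over `ℚ` of one rank are
equivalent).

Let `M = M_1 ⊕ … ⊕ M_N` be a sum of ANY number of such fibres, `M_j` the fibre at `1 / t_j` of the family number `θ(j)`, with
period matrices `c_j`. The Mumford-Tate group of `M` is contained in the group of the `g_1 ⊕ … ⊕ g_N` with symplectic similitudes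
`g_j` of one multiplier; so `Z_M ⊆ polTorsor` for the Zariski closure `Z_M` of the period matrix over the number field `K`, where
`polTorsor` consists of the `X_1 ⊕ … ⊕ X_N` with `X_j J X_j^t = μ polB` for one `μ ≠ 0`. The conjecture
`trdeg = dim MT` implies, if the Mumford-Tate group is this group (as for very general parameters), that `Z_M`
is `polTorsor`; a necessary condition is that the subtorsor GENERATED by `Z_M`, the smallest `K`-subtorsor which contains the
period matrix, is `polTorsor`; its dimension is then `dim MT(M) = N m (2m + 1) + 1`.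

**Theorem.** For every `D` there are `c > 0` and `M` such that for ALL `N`, `T`, all choices `θ` of the families and all weights
`v > 0` and limit matrices `Ω_j`, for all but `N² M T^(N - c)` of the tuples `(t_1, …, t_N)` with `2 ≤ t_j ≤ T`, the following
holds for all number fields `K` of degree at most `D`: the smallest `K`-subtorsor which contains `c_1 ⊕ … ⊕ c_N` is
`polTorsor`. And there are `D(T) → ∞`, `δ(T) → 0` (independent of `N`, `θ`, `v`, `Ω`) such that for all `N` and all but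
`N² δ(T) T^N` of the tuples it holds for all number fields of degree at most `D(T)`.

`HypergeometricSmallestSubtorsor` (MP_f11a48_ag, helper757) is the theorem for a fixed number of summands (of different ranks, with
an additional fixed object `M_0`), with constants which depend on this number in an unspecified way. New: the number of summands is
arbitrary and the constants do not depend on it. The reason is the theorem of Goursat, Kolchin and Ribet for smallest subtorsors
(`Pool/Agent/S821/GQ1` to `GQ8`): without isogenies between two summands the smallest subtorsor of the sum is as large as possible;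
and the subtorsors of the pairs exclude isogenies (`Pool/Agent/S821/GU1`), so that the exceptional tuples are those with an
exceptional entry or an exceptional pair of entries.
-/

set_option autoImplicit false

open PowerSeries Filter Matrix

namespace Pool.Agent.Results.MP_cbf1af_ag.AnyNumberOfMotives

open Pool.Agent.Results.MP_f11a48_ag.HyperellipticSmallestSubtorsor (IsSubtorsor IsOmega polB Respects polTorsor)

/-- the power series `k + ε` in the variable `ε` -/
noncomputable def shift (k : ℕ) : PowerSeries ℚ := C (k : ℚ) + X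

/-- `a_k(ε) = ∏_{l < k} ∏_j ((l + ε)^2 - β_j^2) / (l + 1 + ε)^(2m)`. The series `∑_k a_k(ε) z^(k + ε)` solves the
equation `(θ^n - z ∏_j (θ^2 - β_j^2)) f = ε^n z^ε`, hence its coefficients `f_j` at `ε^j` with `j < n = 2m` are
solutions of the homogeneous equation. -/
noncomputable def frob {m : ℕ} (β : Fin m → ℚ) (k : ℕ) : PowerSeries ℚ :=
  ∏ l ∈ Finset.range k, ((∏ j, (shift l ^ 2 - C (β j ^ 2))) * ((shift (l + 1))⁻¹) ^ (2 * m))

/-- The matrix with the entries `(θ^i f_j)(1 / t)`, where `f_j(z)` is the coefficient of `ε^j` in the series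
`∑_k a_k(ε) z^(k + ε)`, `z^ε = ∑_l (log z)^l ε^l / l!`. -/
noncomputable def Y {m : ℕ} (β : Fin m → ℚ) (t : ℕ) : Matrix (Fin (2 * m)) (Fin (2 * m)) ℂ :=
  Matrix.of fun i j => ∑ l ∈ Finset.range ((j : ℕ) + 1), ((Real.log (1 / t) ^ l / l.factorial : ℝ) : ℂ) *
    ∑' k : ℕ, ((coeff ((j : ℕ) - l) (shift k ^ (i : ℕ) * frob β k) : ℚ) : ℂ) * (1 / (t : ℂ)) ^ k

/-- the polynomial `∏_j (x^2 - β_j^2)` -/
noncomputable def poly {m : ℕ} (β : Fin m → ℚ) : Polynomial ℚ := ∏ j, (Polynomial.X ^ 2 - Polynomial.C (β j ^ 2))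

/-- The matrix of the intersection form on the de Rham side: the entry `(i, j)` is `(-1)^i q_{i+j+1-n}` for
`i + j + 1 ≥ n` and `0` otherwise, where `q_l` are the coefficients of `∏_j (x^2 - β_j^2)`. -/
noncomputable def J {m : ℕ} (β : Fin m → ℚ) : Matrix (Fin (2 * m)) (Fin (2 * m)) ℂ :=
  Matrix.of fun i j => if 2 * m ≤ (i : ℕ) + j + 1 then (((-1) ^ (i : ℕ) * (poly β).coeff (i + j + 1 - 2 * m) : ℚ) : ℂ) else 0

/-- The matrices `Ω_j` respect the forms `J(β_j)` and `polB` up to the factor `(2πi)^v`. -/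
def Polarised {m N : ℕ} (β : Fin N → Fin m → ℚ) (Ω : Fin N → Matrix (Fin (2 * m)) (Fin (2 * m)) ℂ) (v : ℕ) : Prop :=
  ∀ j, (Ω j)ᵀ * J (β j) * Ω j = (2 * Real.pi * Complex.I : ℂ) ^ v • (polB (2 * m)).map (algebraMap ℚ ℂ)

/-- For the sum of the fibres at `1 / t_j` of the families `β_j` and for all number fields `K` of degree at most `D`: the
smallest `K`-subtorsor which contains the period matrix is the torsor of the polarisations. -/
def Full {m N : ℕ} (D : ℕ) (β : Fin N → Fin m → ℚ) (Ω : Fin N → Matrix (Fin (2 * m)) (Fin (2 * m)) ℂ) (t : Fin N → ℕ) : Prop :=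
  ∀ K : Subfield ℂ, FiniteDimensional ℚ K → Module.finrank ℚ K ≤ D →
    IsOmega K (Matrix.blockDiagonal fun j => (Y (β j) (t j) * Ω j)ᵀ) (polTorsor fun j => J (β j))

theorem shift_eq (k : ℕ) : shift k = Pool.Agent.Y119.HY.kx k := rfl

theorem frob_eq {m : ℕ} (β : Fin m → ℚ) (k : ℕ) : frob β k = Pool.Agent.Y119.HY.aq (2 * m) (Pool.Agent.Y119.HY.QB β) k := by
  unfold frob Pool.Agent.Y119.HY.aq
  refine Finset.prod_congr rfl fun l _ => ?_
  congr 1
  unfold Pool.Agent.Y119.HY.QB
  rw [map_prod]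
  refine Finset.prod_congr rfl fun j _ => ?_
  simp only [map_sub, map_pow, Polynomial.aeval_X, Polynomial.aeval_C]
  rfl

theorem J_eq {m : ℕ} (β : Fin m → ℚ) :
    J β = Pool.Agent.Y119.HY.cm (Pool.Agent.Y119.HY.Jm (2 * m) (Pool.Agent.Y119.HY.QB β)) := by
  ext i j
  rw [Pool.Agent.Y119.HY.cm_apply]
  unfold J Pool.Agent.Y119.HY.Jm
  rw [Matrix.of_apply, Matrix.of_apply]
  split_ifs
  · rfl
  · simp

theorem Y_eq {m : ℕ} (β : Fin m → ℚ) (t : ℕ) :
    Y β t = Pool.Agent.Y119.HZ.Yt (2 * m) (Pool.Agent.Y119.HY.QB β) t := by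
  ext i j
  unfold Y Pool.Agent.Y119.HZ.Yt
  rw [Matrix.of_apply, Matrix.mul_apply]
  have hE : ∀ c : Fin (2 * m), Pool.Agent.Y119.HY.E (Pool.Agent.Y119.HY.cm (Pool.Agent.Y119.HY.Am (2 * m)))
      (-((Real.log t : ℝ) : ℂ)) c j = ∑ l ∈ Finset.range (2 * m),
        if (j : ℕ) = c + l then ((Real.log (1 / t) ^ l / l.factorial : ℝ) : ℂ) else 0 := by
    intro c
    unfold Pool.Agent.Y119.HY.E
    rw [Matrix.sum_apply]
    refine Finset.sum_congr rfl fun l _ => ?_
    rw [Matrix.smul_apply, ← Pool.Agent.Y119.HY.cm_pow, Pool.Agent.Y119.HY.cm_apply, Pool.Agent.Y119.HY.Am_pow, smul_eq_mul,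
      one_div, Real.log_inv]
    split_ifs
    · push_cast
      ring
    · simp
  simp only [hE, Finset.mul_sum]
  rw [Finset.sum_comm]
  have hsub : Finset.range ((j : ℕ) + 1) ⊆ Finset.range (2 * m) := by
    intro l hl
    rw [Finset.mem_range] at hl ⊢
    have := j.2
    omega
  refine Finset.sum_subset_zero_on_sdiff hsub (fun l hl => ?_) fun l hl => ?_
  · rw [Finset.mem_sdiff, Finset.mem_range, Finset.mem_range] at hl
    refine Finset.sum_eq_zero fun c _ => ?_
    rw [if_neg (by omega), mul_zero]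
  · rw [Finset.mem_range] at hl
    have hj := j.2
    rw [Finset.sum_eq_single (⟨(j : ℕ) - l, by omega⟩ : Fin (2 * m))]
    · rw [if_pos (by simp only; omega), mul_comm]
      congr 1
      unfold Pool.Agent.Y119.HY.Hf Pool.Agent.Y119.HY.ps
      rw [Matrix.of_apply]
      refine tsum_congr fun k => ?_
      show _ = ((Pool.Agent.Y119.HY.hq (2 * m) (Pool.Agent.Y119.HY.QB β) k i ((j : ℕ) - l) : ℚ) : ℂ) *
        (((1 / (t : ℝ) : ℝ)) : ℂ) ^ k
      rw [frob_eq, shift_eq]
      unfold Pool.Agent.Y119.HY.hq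
      push_cast
      rfl
    · intro c _ hc
      rw [if_neg, mul_zero]
      intro h
      apply hc
      apply Fin.ext
      simp only
      omega
    · intro h
      exact absurd (Finset.mem_univ _) h

/-- a diagonal sequence -/
theorem exists_diag (f : ℕ → ℕ → ℝ) (hf : ∀ D, Tendsto (f D) atTop (nhds 0)) :
    ∃ g : ℕ → ℕ, Tendsto g atTop atTop ∧ Tendsto (fun N => f (g N) N) atTop (nhds 0) := by
  classical
  have h1 : ∀ D : ℕ, ∃ M : ℕ, ∀ N ≥ M, |f D N| ≤ 1 / ((D : ℝ) + 1) := by
    intro D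
    have h2 := (hf D).abs
    rw [abs_zero] at h2
    have h3 : ∀ᶠ N in atTop, |f D N| < 1 / ((D : ℝ) + 1) := h2.eventually (gt_mem_nhds (by positivity))
    obtain ⟨M, hM⟩ := eventually_atTop.1 h3
    exact ⟨M, fun N hN => (hM N hN).le⟩
  choose M hM using h1
  let p : ℕ → ℕ → Prop := fun N D => ∀ D' ≤ D, M D' ≤ N
  let g : ℕ → ℕ := fun N => Nat.findGreatest (p N) N
  have hg1 : ∀ D₀ : ℕ, ∃ N₀ : ℕ, ∀ N ≥ N₀, D₀ ≤ g N ∧ p N (g N) := by
    intro D₀
    refine ⟨D₀ + ∑ D' ∈ Finset.range (D₀ + 1), M D', fun N hN => ?_⟩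
    have h2 : p N D₀ := by
      intro D' hD'
      have h3 : M D' ≤ ∑ D' ∈ Finset.range (D₀ + 1), M D' :=
        Finset.single_le_sum (f := M) (fun _ _ => Nat.zero_le _) (Finset.mem_range.2 (by omega))
      omega
    have h4 : D₀ ≤ N := by omega
    exact ⟨Nat.le_findGreatest h4 h2, Nat.findGreatest_spec (P := p N) h4 h2⟩
  have hgt : Tendsto g atTop atTop := by
    rw [tendsto_atTop_atTop]
    intro D₀
    obtain ⟨N₀, hN₀⟩ := hg1 D₀
    exact ⟨N₀, fun N hN => (hN₀ N hN).1⟩
  refine ⟨g, hgt, ?_⟩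
  rw [tendsto_zero_iff_abs_tendsto_zero]
  have h5 : Tendsto (fun N => 1 / (((g N : ℕ) : ℝ) + 1)) atTop (nhds 0) :=
    tendsto_one_div_add_atTop_nhds_zero_nat.comp hgt
  refine squeeze_zero' (Eventually.of_forall fun N => abs_nonneg _) ?_ h5
  obtain ⟨N₀, hN₀⟩ := hg1 0
  filter_upwards [eventually_ge_atTop N₀] with N hN
  exact hM (g N) N ((hN₀ N hN).2 (g N) le_rfl)

/-- **Sums of any number of motives of Calabi-Yau type.** -/
theorem result (m L : ℕ) (hm : 1 ≤ m) (hL : 1 ≤ L) (β : Fin L → Fin m → ℚ) (hβ : ∀ l i, ∀ a : ℤ, β l i ≠ a) :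
    -- number fields of degree at most `D`
    (∀ D : ℕ, ∃ c M : ℝ, 0 < c ∧ ∀ (N T v : ℕ) (θ : Fin N → Fin L) (Ω : Fin N → Matrix (Fin (2 * m)) (Fin (2 * m)) ℂ),
      0 < N → 1 ≤ T → 0 < v → Polarised (fun j => β (θ j)) Ω v → ∃ S : Finset (Fin N → ℕ),
        (S.card : ℝ) ≤ N ^ 2 * (M * (T : ℝ) ^ ((N : ℝ) - c)) ∧ ∀ t : Fin N → ℕ, (∀ j, 2 ≤ t j ∧ t j ≤ T) → t ∉ S →
          Full D (fun j => β (θ j)) Ω t) ∧
    -- number fields of degree at most `D T`, which tends to infinity
    ∃ (D : ℕ → ℕ) (δ : ℕ → ℝ), Tendsto D atTop atTop ∧ Tendsto δ atTop (nhds 0) ∧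
      ∀ (N T v : ℕ) (θ : Fin N → Fin L) (Ω : Fin N → Matrix (Fin (2 * m)) (Fin (2 * m)) ℂ),
      0 < N → 1 ≤ T → 0 < v → Polarised (fun j => β (θ j)) Ω v → ∃ S : Finset (Fin N → ℕ),
        (S.card : ℝ) ≤ N ^ 2 * (δ T * (T : ℝ) ^ N) ∧ ∀ t : Fin N → ℕ, (∀ j, 2 ≤ t j ∧ t j ≤ T) → t ∉ S →
          Full (D T) (fun j => β (θ j)) Ω t := by
  have hβ' : ∀ i, ∀ j, ∀ l : ℕ, (l : ℚ) + β i j ≠ 0 ∧ (l : ℚ) + -β i j ≠ 0 := by
    intro i j l
    constructor
    · intro h
      apply hβ i j (-(l : ℤ))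
      push_cast
      linear_combination h
    · intro h
      apply hβ i j (l : ℤ)
      push_cast
      linear_combination -h
  have hQ := fun i => Pool.Agent.Y119.HZ.QD_QB hm (hβ' i)
  have hH := fun i => fun a b => Pool.Agent.Y119.HY.sdc_hps (hβ' i) (hQ i) a b
  have h2 : ∀ D : ℕ, ∃ c M : ℝ, 0 < c ∧ ∀ (N T v : ℕ) (θ : Fin N → Fin L)
      (Ω : Fin N → Matrix (Fin (2 * m)) (Fin (2 * m)) ℂ),
      0 < N → 1 ≤ T → 0 < v → Polarised (fun j => β (θ j)) Ω v → ∃ S : Finset (Fin N → ℕ),
        (S.card : ℝ) ≤ N ^ 2 * (M * (T : ℝ) ^ ((N : ℝ) - c)) ∧ ∀ t : Fin N → ℕ, (∀ j, 2 ≤ t j ∧ t j ≤ T) → t ∉ S →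
          Full D (fun j => β (θ j)) Ω t := by
    intro D
    obtain ⟨c, M, hc, -, h1⟩ := Pool.Agent.S821.GU.hg_tuples (n := 2 * m) (even_two_mul m) (by omega) hL
      (Qp := fun l => Pool.Agent.Y119.HY.QB (β l)) hQ hH D
    refine ⟨c, M, hc, fun N T v θ Ω hN hT hv hΩ => ?_⟩
    obtain ⟨S, hS, h3⟩ := h1 N T v θ Ω hN hT hv (fun j => by
      have h4 := hΩ j
      rw [J_eq] at h4
      exact h4)
    refine ⟨S, hS, fun t ht htS K hK hKD => ?_⟩
    have h5 := (h3 t ht htS).2 K hK hKD
    simp only [Y_eq, J_eq]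
    exact h5
  refine ⟨h2, ?_⟩
  choose c M hc hcount using h2
  obtain ⟨D, hD, hδ⟩ := exists_diag (fun D T => |M D| * (1 / (T : ℝ) ^ (c D))) (by
    intro D
    have h3 := (tendsto_rpow_atTop (hc D)).comp tendsto_natCast_atTop_atTop
    have h4 := (h3.inv_tendsto_atTop).const_mul |M D|
    rw [mul_zero] at h4
    refine h4.congr fun T => ?_
    rw [one_div]
    rfl)
  refine ⟨D, _, hD, hδ, fun N T v θ Ω hN hT hv hΩ => ?_⟩
  obtain ⟨S, hS, h4⟩ := hcount (D T) N T v θ Ω hN hT hv hΩ
  refine ⟨S, hS.trans ?_, h4⟩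
  have hT0 : (0 : ℝ) < T := by
    have : 0 < T := hT
    exact_mod_cast this
  refine mul_le_mul_of_nonneg_left ?_ (by positivity)
  rw [Real.rpow_sub hT0, Real.rpow_natCast]
  calc M (D T) * ((T : ℝ) ^ N / (T : ℝ) ^ (c (D T))) ≤ |M (D T)| * ((T : ℝ) ^ N / (T : ℝ) ^ (c (D T))) := by
        refine mul_le_mul_of_nonneg_right (le_abs_self _) (by positivity)
    _ = |M (D T)| * (1 / (T : ℝ) ^ (c (D T))) * (T : ℝ) ^ N := by ring

end Pool.Agent.Results.MP_cbf1af_ag.AnyNumberOfMotives
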