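import Pool.Agent.U536.CF.TN
import Pool.Agent.U951.TR.BetaE

/-!
# Beta values (periods of Fermat curves) at all fractions near tuples with large common factors with the values of
# multiplicative functions

Let `ρ_1, …, ρ_m > 0` be such that no `ρ_i` and no `ρ_i - ρ_k` (`i ≠ k`) is an integer, for instance rational numbers; then the
numbers `B(q, ρ_i)`, `q` rational, are up to algebraic factors periods of Fermat curves. Let `F_0, F_1, …` be `2 n` positive
multiplicative functions of at most polynomial growth such that `F_i p ≤ M p` for the large primes `p`, with different values at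
different large primes; for example Euler's function or the sum of the divisors. Let `b₁ < 1` and `0 ≤ c₁ < 2 b₁ - 1`. For all
tuples `t` in `[1, N]^(2 n)` but `N^(2 n) exp (-(log N)^c₁)`, for EVERY tuple `w` of `2 n` integers `w_i ≥ exp ((log N)^b₁)` with
`gcd(w_i, F_i(t_i)) ≥ w_l^r` for all `i`, `l` (for example all the large divisors of comparable size, and their multiples by small
integers), and for ALL tuples `α_i = u_i w_i + v_i` with `u_i ≠ 0`, `|u_i|, |v_i| ≤ w_l^η` for some `l`: if the fractions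
`q_j = α_(2j) / α_(2j+1)` are in `[a, b]`, `a > 0`, then every nonzero integral polynomial of degree at most `d` in each variable
with coefficients of absolute value at most `H ^ A`, `H = max |α_i|`, takes at the `m n + 1` numbers `π`, `B(q_j, ρ_i)` a value of
absolute value larger than `H ^ (-R)`.

Proof. The starting theorem `FermatPeriods` counts the exceptional tuples of rational numbers with denominators at most `T`, for
polynomials whose heights are bounded in terms of `T`. This gives a bound for the number of the tuples of integers of absolute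
value `≤ X`, not in lowest terms, whose quotients are exceptional for the heights belonging to their own largest entry
(`Pool.Agent.U951.TR.Frac`: common divisors, and counting by halves). The divisors of the values of the `F_i` are treated by
the tool `Pool.Agent.U536.CF` of helper536 (the part of `t` with few prime factors, Hölder's inequality for the divisor function).
-/

set_option autoImplicit false

namespace Pool.Agent.Results.MP_cbf1af_ag.CommonFactors

open Pool.Agent.N733.TG (LM lm_totient lm_sigma)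
open Pool.Agent.U536.CF (CommonT common_near commonT_of_dvd)
open Pool.Agent.Results.MP_cbf1af_ag.FermatPeriods (periods)

/-- the fractions `α_0 / α_1`, `α_2 / α_3`, … -/
noncomputable def frac {n : ℕ} (α : Fin (n * 2) → ℤ) (j : Fin n) : ℚ :=
  (α (finProdFinEquiv (j, 0)) : ℚ) / (α (finProdFinEquiv (j, 1)) : ℚ)

/-- the largest absolute value of the entries -/
def H {k : ℕ} (α : Fin k → ℤ) : ℕ := Finset.univ.sup fun i => (α i).natAbs

/-- If the fractions `q_j` of `α` are in `[a, b]`, then every nonzero polynomial in `m n + 1` variables of degree at most `d` in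
each variable with integer coefficients of absolute value at most `H ^ A` takes at `π` and the `B(q_j, ρ_i)` a value of absolute
value larger than `H ^ (-R)`. -/
def Free {n m : ℕ} (ρ : Fin m → ℝ) (d : ℕ) (a b A R : ℝ) (α : Fin (n * 2) → ℤ) : Prop :=
  (∀ j, a ≤ frac α j ∧ frac α j ≤ b) → ∀ P : MvPolynomial (Option (Fin n × Fin m)) ℤ, P ≠ 0 → (∀ i, P.degreeOf i ≤ d) →
    (∀ s, |((P.coeff s : ℤ) : ℝ)| ≤ (H α : ℝ) ^ A) → (H α : ℝ) ^ (-R) < |MvPolynomial.aeval (periods ρ (frac α)) P|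

/-- **Theorem.** Let `[a, b] ⊂ (0, ∞)`, `n ≥ 1`, `d`, `A ≥ 0`, and let `ρ_1, …, ρ_m > 0` be such that no `ρ_i` and no `ρ_i - ρ_k`
(`i ≠ k`) is an integer. There are `R`, `η > 0` and `0 < r < 1` such that for all families `F` of `2 n` functions with `LM`,
`b₁ < 1`, `0 ≤ c₁ < 2 b₁ - 1` and all large `N`, for all `t` in `[1, N]^(2 n)` but `N^(2 n) exp (-(log N)^c₁)` and for EVERY tuple
`w` of `2 n` integers `w_i ≥ exp ((log N)^b₁)` with `gcd(w_i, F_i(t_i)) ≥ w_l^r` for all `i`, `l`, ALL tuples `u_i w_i + v_i` with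
`u_i ≠ 0`, `|u_i|, |v_i| ≤ w_l^η` for some `l` are free. Tuples of divisors `w_i ≥ exp ((log N)^b)` of the `F_i(t_i)` with
`w_l^r ≤ w_i` for all `i`, `l` are such tuples `w`. Euler's function and the sum of the divisors are examples of the `F_i`. -/
theorem result :
    (∀ (n m d : ℕ), 1 ≤ n → ∀ ρ : Fin m → ℝ, (∀ i, 0 < ρ i) → (∀ i, ∀ z : ℤ, ρ i ≠ z) →
      (∀ i k, i ≠ k → ∀ z : ℤ, ρ i - ρ k ≠ z) → ∀ a b A : ℝ, 0 < a → a < b → 0 ≤ A →
      ∃ R η r : ℝ, 0 < η ∧ 0 < r ∧ r < 1 ∧
      ∀ F : Fin (n * 2) → ℕ → ℕ, (∀ i, LM (F i)) → ∀ b₁ c₁ : ℝ, b₁ < 1 → 0 ≤ c₁ → c₁ < 2 * b₁ - 1 →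
        ∃ N₀ : ℕ, ∀ N : ℕ, N₀ ≤ N →
          ({t : Fin (n * 2) → ℕ | (∀ i, 1 ≤ t i ∧ t i ≤ N) ∧ ¬ ∀ w : Fin (n * 2) → ℕ, CommonT F b₁ r N t w →
            ∀ u v : Fin (n * 2) → ℤ, (∃ l, ∀ i, u i ≠ 0 ∧ |(u i : ℝ)| ≤ (w l : ℝ) ^ η ∧ |(v i : ℝ)| ≤ (w l : ℝ) ^ η) →
              Free ρ d a b A R (fun i => u i * (w i : ℤ) + v i)}.ncard : ℝ) ≤
            (N : ℝ) ^ (n * 2) * Real.exp (-(Real.log N ^ c₁))) ∧
    (LM Nat.totient ∧ LM (fun m => ∑ d ∈ m.divisors, d)) ∧
    ∀ (k : ℕ) (F : Fin k → ℕ → ℕ) (b r : ℝ) (N : ℕ) (t w : Fin k → ℕ), (∀ i, Real.exp (Real.log N ^ b) ≤ (w i : ℝ)) →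
      (∀ i, w i ∣ F i (t i)) → (∀ i j, (w j : ℝ) ^ r ≤ (w i : ℝ)) → CommonT F b r N t w := by
  refine ⟨?_, ⟨lm_totient, lm_sigma⟩, fun k F b r N t w h1 h2 h3 => commonT_of_dvd h1 h2 h3⟩
  intro n m d hn ρ hρ hz1 hz2 a b A ha hab hA
  obtain ⟨B, C, -, h, -⟩ := Pool.Agent.U951.TR.Beta.input hn d ρ hρ hz1 hz2 ha hab hA
  have hk : 1 ≤ n * 2 := by omega
  obtain ⟨η, r, hη, hρ0, hρ1, hF⟩ := common_near hk (Pool.Agent.U951.TR.Beta.cn_pos n m d)
  refine ⟨B, η, r, hη, hρ0, hρ1, fun F hLM b₁ c₁ hb₁ hc₁ hcb => ?_⟩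
  obtain ⟨N₀, hN₀⟩ := hF F hLM C b₁ c₁ hb₁ hc₁ hcb
  refine ⟨N₀, fun N hN => ?_⟩
  refine le_trans ?_ (hN₀ N hN _ h)
  refine Nat.cast_le.2 (Set.ncard_le_ncard ?_ ?_)
  · rintro t ⟨ht, hnot⟩
    refine ⟨ht, fun hall => hnot fun w hw u v huv => ?_⟩
    by_contra hcon
    refine hall w hw u v huv ?_
    unfold Free at hcon
    push Not at hcon
    obtain ⟨h1, P, h2, h3, h4, h5⟩ := hcon
    refine ⟨fun j hj => ?_, h1, P, h2, h3, h4, h5⟩
    have h6 := (h1 j).1
    have h7 : frac (fun i => u i * (w i : ℤ) + v i) j = 0 := by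
      unfold frac
      rw [hj, Int.cast_zero, div_zero]
    rw [h7, Rat.cast_zero] at h6
    linarith
  · apply (Set.Finite.pi' fun _ : Fin (n * 2) => Set.finite_Icc 1 N).subset
    rintro t ⟨ht, -⟩ i
    exact ht i

end Pool.Agent.Results.MP_cbf1af_ag.CommonFactors
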