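import Pool.Agent.S821.SplitH
import Pool.Agent.Results.MP_cbf1af_ag.GrowingDegreeTuples

/-!
# The period conjecture for hypergeometric motives at the large coprime factors of almost all integers

Let `β_0, β_1, …` be families of `m` rational numbers which are not integers. The hypergeometric equations
`(θ^(2 m) - z ∏_j (θ^2 - β_{i,j}^2)) f = 0` have maximally unipotent monodromy at `z = 0`; their period matrices `Y_i(z) Ω_i`
are, up to algebraic changes of the basis, the period matrices of families of motives (for `m = 2` and `β = (1/5, 2/5)` of the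
mirror quintic family, up to contiguity), with symplectic monodromy groups. By the conjecture of Grothendieck the relations
over number fields between the periods of the fibres at general rational `z_i` are those of the symplectic groups.

We show that for almost all integers `n` this is true, in degree at most `δ`, over all number fields of degree at most `δ`, for
the fibres at `z_i = 1 / t_i` for ALL `k`-tuples of pairwise coprime large divisors `t_1, …, t_k` of `n` (for example the large
prime factors of `n`), for every choice of `k` of the families, and together with the logarithms `log t_i`, the constant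
matrices `Ω_i` and arbitrary further constants `w`. Here `δ + 2 = (log t) ^ (1 / C)` with `t = min t_i`; large means
`t_i ≥ ψ(n)`, where the function `ψ` tends to infinity as slowly as we like; the number `k` of the fibres, the number of the
constants and the indices of the families may be any numbers up to a function `K(n)` which tends to infinity. More precisely
the number of the exceptions `n ≤ N`, for divisors `t_i ≥ y` and the degree `δ`, is at most
`C (δ + 2)^C y^(-1/(δ + 2)^C) N`, uniformly in `Ω`, `w`, `δ`, `y`, `N`; the same holds for the prime factors between `y` and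
`N^(1/k)` of the values of any polynomial.

The starting theorem `GrowingDegreeTuples` bounds the number of the tuples with further relations in cubes. This does not
suffice here: the factors of an integer are of very different sizes, and the bound `C T^(k - c)` does not exclude that all the
pairs `(t_1, t_2)` with `t_1 ≤ t_2^(1 - c)` have further relations.

Proof. The factors are ordered by size; a tuple with a further relation has a first place where the periods at `t_j` are related
to those at the smaller `t_i` and to the constants. The number of such `t_j ≤ X` is at most `C X^(1 - 1/(δ + 2)^C)` uniformly in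
the smaller ones (the windows of the starting library `Pool.Agent.R351.GD`), and the sum of `1 / (t_j ⋯ t_k)` over these minimal
tuples is at most `C (δ + 2)^C y^(-c)` (`Pool.Agent.S821.Split`, `SplitM`). The exceptions are summed over all degrees.
-/

set_option autoImplicit false

open Filter

namespace Pool.Agent.Results.MP_cbf1af_ag.CoprimeFactors

open Pool.Agent.N826.IT.Orb (AlmostAll)
open Pool.Agent.S821.Factors (Law)

open Pool.Agent.Results.MP_cbf1af_ag.GrowingDegreeTuples (Generic consts J J_eq Y_eq point_eq)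

/-- the law, polynomial in the degree -/
theorem law_generic {m : ℕ} (hm : 1 ≤ m) {k : ℕ} (β : Fin k → Fin m → ℚ) (hβ : ∀ i j, ∀ a : ℤ, β i j ≠ a) (q : ℕ) :
    ∃ C : ℕ, 1 ≤ C ∧ ∀ (δ : ℕ) (Ω : Fin k → Matrix (Fin (2 * m)) (Fin (2 * m)) ℂ) (w : Fin q → ℂ),
      Law k (fun t => ¬ Generic δ β Ω w t) (1 / ((δ : ℝ) + 2) ^ C) (C * ((δ : ℝ) + 2) ^ C) := by
  have hβ' : ∀ i j, ∀ l : ℕ, (l : ℚ) + β i j ≠ 0 ∧ (l : ℚ) + -β i j ≠ 0 := by
    intro i j l
    constructor
    · intro h
      apply hβ i j (-(l : ℤ))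
      push_cast
      linear_combination h
    · intro h
      apply hβ i j (l : ℤ)
      push_cast
      linear_combination -h
  have hQ := fun i => Pool.Agent.Y119.HZ.QD_QB hm (hβ' i)
  have hH := fun i a b => Pool.Agent.Y119.HY.sdc_hps (hβ' i) (hQ i) a b
  obtain ⟨C, hC1, hC⟩ := Pool.Agent.S821.SplitH.law_hyp hQ hH (k * (2 * m * (2 * m)) + q)
  refine ⟨C, hC1, fun δ Ω w => ?_⟩
  have hcard : Fintype.card (Fin k × Fin (2 * m) × Fin (2 * m) ⊕ Fin q) = k * (2 * m * (2 * m)) + q := by
    rw [Fintype.card_sum, Fintype.card_prod, Fintype.card_prod, Fintype.card_fin, Fintype.card_fin, Fintype.card_fin]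
  refine (hC δ _ hcard (consts Ω w) (fun l a b => Sum.inl (l, a, b))).mono fun t ht hgen => ht ?_
  intro K hKf hKd P hP hP0 l g hg
  have hO : ∀ i : Fin k, (Matrix.of fun a b => consts Ω w (Sum.inl (i, a, b))) = Ω i := by
    intro i
    ext a b
    rfl
  have h3 := hgen K hKf hKd P hP (by
    rw [← hP0, point_eq]
    simp only [hO, Y_eq]) l g (fun i => by
      have h6 : (g i).transpose * J (β i) * g i = J (β i) := hg i
      rw [J_eq] at h6
      exact h6)
  simp only [hO] at h3
  rw [point_eq]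
  exact h3

/-- **The large coprime factors of almost all integers.** Let `m ≥ 1` and let `β_0, β_1, …` be families of `m` rational numbers
which are not integers. There is a function `C(k, s, q)` of the number `k` of the fibres, of the choice `s_1, …, s_k` of the
families and of the number `q` of the constants, with the following properties.

(1) For all `k`, `s`, `q`, `δ`, all constant matrices `Ω_1, …, Ω_k`, all `w ∈ ℂ^q` and all `y, N ≥ 1`: for all integers `n ≤ N`
but at most `C (δ + 2)^C y^(-1/(δ + 2)^C) N`, the fibres at `z_i = 1 / t_i` of the families `β_(s_i)` are generic in degree `δ`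
for ALL pairwise coprime divisors `t_1, …, t_k ≥ y` of `n`.

(2) For every integral polynomial `f ≠ 0` and `k`, `s`, `q` there is `C'` such that for all `δ`, `Ω`, `w` and `y, N ≥ 1`, for
all integers `n ≤ N` but at most `C' (δ + 2)^C y^(-1/(δ + 2)^C) N`, the same is true for all `k`-tuples of distinct prime factors
`t_i` of `f(n)` with `y ≤ t_i ≤ N^(1/k)`.

(3) Let `Ω_0, Ω_1, …` be any matrices and `w_0, w_1, …` any complex numbers. For every function `ψ` which tends to infinity
there is a function `K` which tends to infinity such that for almost all `n`, for all `k, q, s_1, …, s_k ≤ K(n)`, all `δ` and all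
pairwise coprime divisors `t_1, …, t_k` of `n` with `t_i ≥ ψ(n)` and `t_i ≥ 2^((δ + 2)^C)` the fibres at `1 / t_i` of the families
`β_(s_i)` are generic in degree `δ`, with the constants `Ω_(s_i)` and the first `q` numbers `w`. -/
theorem result {m : ℕ} (hm : 1 ≤ m) (β : ℕ → Fin m → ℚ) (hβ : ∀ i j, ∀ a : ℤ, β i j ≠ a) :
    ∃ C : (k : ℕ) → (Fin k → ℕ) → ℕ → ℕ,
    (∀ (k : ℕ) (s : Fin k → ℕ) (q δ : ℕ) (Ω : Fin k → Matrix (Fin (2 * m)) (Fin (2 * m)) ℂ) (w : Fin q → ℂ) (y N : ℕ),
      1 ≤ y → 1 ≤ N →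
        ({n : ℕ | 1 ≤ n ∧ n ≤ N ∧ ∃ t : Fin k → ℕ, (∀ i, t i ∣ n ∧ y ≤ t i) ∧
          (∀ i j, i ≠ j → Nat.Coprime (t i) (t j)) ∧ ¬ Generic δ (fun i => β (s i)) Ω w t}.ncard : ℝ) ≤
          C k s q * ((δ : ℝ) + 2) ^ C k s q * (y : ℝ) ^ (-(1 / ((δ : ℝ) + 2) ^ C k s q)) * N) ∧
    (∀ f : Polynomial ℤ, f ≠ 0 → ∀ (k : ℕ) (s : Fin k → ℕ) (q : ℕ), ∃ C' : ℝ, ∀ (δ : ℕ)
      (Ω : Fin k → Matrix (Fin (2 * m)) (Fin (2 * m)) ℂ) (w : Fin q → ℂ) (y N : ℕ), 1 ≤ y → 1 ≤ N →
        ({n : ℕ | 1 ≤ n ∧ n ≤ N ∧ ∃ t : Fin k → ℕ, Function.Injective t ∧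
          (∀ i, (t i).Prime ∧ (t i : ℤ) ∣ f.eval (n : ℤ) ∧ y ≤ t i ∧ t i ^ k ≤ N) ∧
          ¬ Generic δ (fun i => β (s i)) Ω w t}.ncard : ℝ) ≤
          C' * ((δ : ℝ) + 2) ^ C k s q * (y : ℝ) ^ (-(1 / ((δ : ℝ) + 2) ^ C k s q)) * N) ∧
    (∀ (Ω : ℕ → Matrix (Fin (2 * m)) (Fin (2 * m)) ℂ) (w : ℕ → ℂ) (ψ : ℕ → ℕ), Tendsto ψ atTop atTop →
      ∃ K : ℕ → ℕ, Tendsto K atTop atTop ∧ AlmostAll (fun n => ∀ k ≤ K n, ∀ q ≤ K n, ∀ s : Fin k → ℕ, (∀ i, s i ≤ K n) →
        ∀ (δ : ℕ) (t : Fin k → ℕ), (∀ i, t i ∣ n ∧ ψ n ≤ t i ∧ 2 ^ ((δ + 2) ^ C k s q) ≤ t i) →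
          (∀ i j, i ≠ j → Nat.Coprime (t i) (t j)) →
          Generic δ (fun i => β (s i)) (fun i => Ω (s i)) (fun j : Fin q => w j) t)) := by
  choose C hC1 hC using fun (k : ℕ) (s : Fin k → ℕ) (q : ℕ) =>
    law_generic hm (fun i => β (s i)) (fun i j a => hβ (s i) j a) q
  refine ⟨fun k s q => 3 * C k s q, ?_, ?_, ?_⟩
  · intro k s q δ Ω w y N hy _
    have hδ : (1 : ℝ) ≤ (δ : ℝ) + 2 := by linarith [(Nat.cast_nonneg δ : (0 : ℝ) ≤ δ)]
    have h2 := Pool.Agent.S821.Split.Law.mono_const (hC k s q δ Ω w) (c' := 1 / ((δ : ℝ) + 2) ^ (3 * C k s q))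
      (C' := ((3 * C k s q : ℕ) : ℝ) * ((δ : ℝ) + 2) ^ (3 * C k s q))
      (one_div_le_one_div_of_le (by positivity) (pow_le_pow_right₀ hδ (by omega)))
      (mul_le_mul (by exact_mod_cast (by omega : C k s q ≤ 3 * C k s q))
        (pow_le_pow_right₀ hδ (by omega)) (by positivity) (by positivity)) (by positivity)
    exact h2.nat hy
  · intro f hf k s q
    refine ⟨2 * C k s q * ((max 1 f.natDegree : ℕ) : ℝ) ^ k + ((f.leadingCoeff.natAbs + 1 : ℕ) : ℝ),
      fun δ Ω w y N hy hN => ?_⟩
    have hδ : (1 : ℝ) ≤ (δ : ℝ) + 2 := by linarith [(Nat.cast_nonneg δ : (0 : ℝ) ≤ δ)]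
    have h2 := Pool.Agent.S821.Split.Law.poly_pow (a := C k s q) (by positivity) (hC k s q δ Ω w) f hf hy hN
    refine h2.trans ?_
    have hy1 : (1 : ℝ) ≤ y := by exact_mod_cast hy
    have h3 : (y : ℝ) ^ (-(1 / ((δ : ℝ) + 2) ^ C k s q)) ≤ (y : ℝ) ^ (-(1 / ((δ : ℝ) + 2) ^ (3 * C k s q))) :=
      Real.rpow_le_rpow_of_exponent_le hy1 (neg_le_neg (one_div_le_one_div_of_le (by positivity)
        (pow_le_pow_right₀ hδ (by omega))))
    have h4 : ((δ : ℝ) + 2) ^ C k s q ≤ ((δ : ℝ) + 2) ^ (3 * C k s q) := pow_le_pow_right₀ hδ (by omega)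
    exact mul_le_mul_of_nonneg_right (mul_le_mul (mul_le_mul_of_nonneg_left h4 (by positivity)) h3
      (by positivity) (by positivity)) (Nat.cast_nonneg _)
  · intro Ω w ψ hψ
    obtain ⟨K, hK, h⟩ := Pool.Agent.S821.Split.growth_fin (ι := Σ k : ℕ, (Fin k → ℕ) × ℕ)
      (fun K => (Finset.range (K + 1)).sigma fun k => (Fintype.piFinset fun _ : Fin k => Finset.range (K + 1)) ×ˢ
        Finset.range (K + 1))
      (fun i j hij => Finset.sigma_mono (Finset.range_mono (by omega)) fun k =>
        Finset.product_subset_product (Fintype.piFinset_subset _ _ fun _ => Finset.range_mono (by omega))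
          (Finset.range_mono (by omega)))
      (fun a n => ∀ (δ : ℕ) (t : Fin a.1 → ℕ), (∀ i, t i ∣ n ∧ ψ n ≤ t i ∧ 2 ^ ((δ + 2) ^ (3 * C a.1 a.2.1 a.2.2)) ≤ t i) →
          (∀ i j, i ≠ j → Nat.Coprime (t i) (t j)) →
          ¬ ¬ Generic δ (fun i => β (a.2.1 i)) (fun i => Ω (a.2.1 i)) (fun j : Fin a.2.2 => w j) t)
      (fun a => Pool.Agent.S821.Split.growing (hC1 _ _ _) (a := C a.1 a.2.1 a.2.2) (by positivity)
        (fun δ t => ¬ Generic δ (fun i => β (a.2.1 i)) (fun i => Ω (a.2.1 i)) (fun j : Fin a.2.2 => w j) t)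
        (fun δ => hC a.1 a.2.1 a.2.2 δ _ _) ψ hψ)
    refine ⟨K, hK, Pool.Agent.N826.IT.Orb.almostAll_mono h fun n hn k hk q hq s hs δ t ht1 ht2 => ?_⟩
    exact not_not.1 (hn ⟨k, (s, q)⟩ (by
      rw [Finset.mem_sigma, Finset.mem_product, Fintype.mem_piFinset]
      exact ⟨Finset.mem_range.2 (Nat.lt_succ_of_le hk), fun i => Finset.mem_range.2 (Nat.lt_succ_of_le (hs i)),
        Finset.mem_range.2 (Nat.lt_succ_of_le hq)⟩) δ t ht1 ht2)

end Pool.Agent.Results.MP_cbf1af_ag.CoprimeFactors
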