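import Pool.Agent.U226.HF.Rat

/-!
# A small share of the expected independence of products of periods decides the period conjecture

Let `Y` be a smooth projective variety over a number field, `c` the period matrix of `H^j(Y)` (an
`N × N`-matrix), and suppose that the Hodge classes on the tensor powers of `H^j(Y)` are absolute Hodge (for
instance `Y` of abelian type: abelian varieties, products of curves, K3 surfaces, Fermat hypersurfaces), so
that they define a torsor `Ω` of the Mumford-Tate group over `ℚ̄` which contains `c`. Let

* `p n` = the largest number of products of at most `n` entries of `c` which are linearly independent over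
  `ℚ̄`,
* `m n` = the largest number of products of at most `n` matrix entries which are linearly independent over
  `ℚ̄` as functions on `Ω`, that is, modulo the relations given by the Hodge classes.

So `p n ≤ m n`. We prove:

1. `trdeg_ℚ ℚ(c) = dim MT(H^j(Y))` if and only if `p n = m n` for all `n`.
2. For each `d`: all polynomial relations of degree at most `d` with algebraic coefficients between the
   entries of `c` hold on `Ω`, or `(r + 1) p n ≤ m (n + r d)` for ALL `n` and `r`, and therefore

     `p n ≤ (3 N² d / n) m n` for ALL `n ≥ 1`.

So the question is decided by a small share of the expected independence: if for ONE `n` the share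
`p n / m n` is larger than `3 N² d / n` (for example one percent, for one `n ≥ 300 N² d`), then all
relations of degree at most `d` between the periods come from Hodge classes; and if `n p n / m n` is not
bounded, then `trdeg_ℚ ℚ(c) = dim MT(H^j(Y))`. If the conjecture fails for `H^j(Y)` then `p n = O(m n / n)`.

Proof of 2. Let `𝔭` be the ideal of the relations of `c` and `G` the group of `Ω`, over `ℚ̄`. As `Ω` is
irreducible and `G(ℚ̄)` acts transitively on `Ω(ℚ̄)`, the truncations in degree `≤ d` of the translates
`g 𝔭` are infinitely many, if there is one relation of degree `≤ d` which does not hold on `Ω`: otherwise a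
product of relations of these translates would vanish on `Ω`. The translates have the same Hilbert function
`p`, so `r + 1` of them with different truncations are separated by polynomials of degree `r d`. Hence
`(r + 1) p n ≤ m (n + r d)`; finally `(n + 1) m (n + 1) ≤ (n + 1 + N²) m n` (double counting of standard
monomials), and `r` is chosen as the integral part of `n / (N² d)`.

In the Lean statement `N`, `c` and the set `S` are arbitrary: `S` is any set of pairs of tensors
`(dR, B)` of degree `n` (in coordinates), `dR` with coefficients in `ℚ̄`, `B` with rational coefficients, with
weight `k` and `c^{⊗ n} (dR) = (2 π i) ^ k B`, for which the torsor is irreducible (its ideal is prime). For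
the question: the pairs of the two realizations of the Hodge classes in `H^j(Y)^{⊗ n} (k)`, `2 k = n j`; the
torsor is irreducible because the Mumford-Tate group is connected.
-/

set_option autoImplicit false

open MvPolynomial

namespace Pool.Agent.Results.MP_cbf1af_ag.SmallShareDecides

open Pool.Agent.U226.HF

/-- **A small share decides.** -/
theorem result {N : ℕ} (S : Set (TensorPair Qbar N)) (c : Fin N × Fin N → ℂ)
    (hc : IsPeriodMatrix S c) (hS : (torsorIdeal S).IsPrime) (p m : ℕ → ℕ)
    (hp : ∀ n, p n = numProd Qbar c n)
    (hm : ∀ n, m n = numProd Qbar (entries (torsor S ℂ)) n) :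
    (∀ n, p n ≤ m n) ∧ (TrdegIsDim S c ↔ ∀ n, p n = m n) ∧
    ∀ d : ℕ, (∀ P : MvPolynomial (Fin N × Fin N) Qbar, P.totalDegree ≤ d →
        aeval c P = 0 → Holds S P) ∨
      ∀ n : ℕ, (∀ r : ℕ, (r + 1) * p n ≤ m (n + r * d)) ∧ n * p n ≤ 3 * N ^ 2 * d * m n := by
  obtain rfl := funext hp
  obtain rfl := funext hm
  refine ⟨fun n => numProd_le hc.mem n, trdegIsDim_iff.trans (weak_conn hc hS), fun d => ?_⟩
  by_cases h : ∀ P : MvPolynomial (Fin N × Fin N) Qbar, P.totalDegree ≤ d →
      aeval c P = 0 → Holds S P
  · exact Or.inl h
  · right
    push Not at h
    obtain ⟨P, hP1, hP2, hP3⟩ := h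
    exact fun n => conn_law hc hS hP1 hP2 hP3 n

end Pool.Agent.Results.MP_cbf1af_ag.SmallShareDecides
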